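import Pool.Agent.BE01.Stmts

/-!
# Squad BE01, module EVA: bounds for `0 ≤ δ ≤ 1`
-/

namespace Pool.Agent.BE01.H99

open Pool.Agent.BE01

theorem gen_bound {M : Type} [NormedAddCommGroup M] [NormedSpace ℝ M] (k : ℕ) (t : ℝ → ℝ)
    (ht : ∀ ψ, |t ψ| ≤ 1) (m : M) (ψ δ : ℝ) (h0 : 0 ≤ δ) (h1 : δ ≤ 1) :
    ‖(δ ^ k * t ψ) • m‖ ≤ ‖m‖ ∧ ‖(δ ^ k * t ψ) • m - ((0 : ℝ) ^ k * t ψ) • m‖ ≤ ‖m‖ * δ := by
  have hp0 : 0 ≤ δ ^ k := pow_nonneg h0 k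
  have hp1 : δ ^ k ≤ 1 := pow_le_one₀ h0 h1
  constructor
  · rw [norm_smul, Real.norm_eq_abs, abs_mul, abs_of_nonneg hp0]
    have h2 : δ ^ k * |t ψ| ≤ 1 := by
      calc δ ^ k * |t ψ| ≤ 1 * 1 := mul_le_mul hp1 (ht ψ) (abs_nonneg _) zero_le_one
        _ = 1 := one_mul 1
    calc δ ^ k * |t ψ| * ‖m‖ ≤ 1 * ‖m‖ := mul_le_mul_of_nonneg_right h2 (norm_nonneg _)
      _ = ‖m‖ := one_mul _
  · rw [← sub_smul, ← sub_mul, norm_smul, Real.norm_eq_abs, abs_mul]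
    have h3 : |δ ^ k - (0 : ℝ) ^ k| ≤ δ := by
      rcases Nat.eq_zero_or_pos k with hk | hk
      · subst hk
        simpa using h0
      · rw [zero_pow (Nat.pos_iff_ne_zero.1 hk), sub_zero, abs_of_nonneg hp0]
        calc δ ^ k ≤ δ ^ 1 := pow_le_pow_of_le_one h0 h1 hk
          _ = δ := pow_one δ
    have h4 : |δ ^ k - (0 : ℝ) ^ k| * |t ψ| ≤ δ := by
      calc |δ ^ k - (0 : ℝ) ^ k| * |t ψ| ≤ δ * 1 :=
            mul_le_mul h3 (ht ψ) (abs_nonneg _) h0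
        _ = δ := mul_one δ
    calc |δ ^ k - (0 : ℝ) ^ k| * |t ψ| * ‖m‖ ≤ δ * ‖m‖ :=
          mul_le_mul_of_nonneg_right h4 (norm_nonneg _)
      _ = ‖m‖ * δ := mul_comm _ _

/-- EVA -/
theorem eva : EvaStmt := by
  intro M _ _ α c P hP
  induction hP using Submodule.span_induction with
  | mem P h =>
    obtain ⟨k, j, -, m, hm | hm⟩ := h
    · refine ⟨‖m‖, fun ψ δ h0 h1 => ?_⟩
      rw [hm]
      exact gen_bound k (fun ψ => Real.cos (j * ψ)) (fun ψ => Real.abs_cos_le_one _) m ψ δ h0 h1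
    · refine ⟨‖m‖, fun ψ δ h0 h1 => ?_⟩
      rw [hm]
      exact gen_bound k (fun ψ => Real.sin (j * ψ)) (fun ψ => Real.abs_sin_le_one _) m ψ δ h0 h1
  | zero =>
    refine ⟨0, fun ψ δ h0 h1 => ?_⟩
    simp
  | add P Q _ _ hP hQ =>
    obtain ⟨C, hC⟩ := hP
    obtain ⟨C', hC'⟩ := hQ
    refine ⟨C + C', fun ψ δ h0 h1 => ?_⟩
    obtain ⟨a1, a2⟩ := hC ψ δ h0 h1
    obtain ⟨b1, b2⟩ := hC' ψ δ h0 h1
    constructor
    · exact (norm_add_le _ _).trans (add_le_add a1 b1)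
    · have h : (P + Q) ψ δ - (P + Q) ψ 0 = (P ψ δ - P ψ 0) + (Q ψ δ - Q ψ 0) := by
        simp only [Pi.add_apply]
        abel
      rw [h, add_mul]
      exact (norm_add_le _ _).trans (add_le_add a2 b2)
  | smul r P _ hP =>
    obtain ⟨C, hC⟩ := hP
    refine ⟨|r| * C, fun ψ δ h0 h1 => ?_⟩
    obtain ⟨a1, a2⟩ := hC ψ δ h0 h1
    constructor
    · have h : (r • P) ψ δ = r • P ψ δ := rfl
      rw [h, norm_smul, Real.norm_eq_abs]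
      exact mul_le_mul_of_nonneg_left a1 (abs_nonneg r)
    · have h : (r • P) ψ δ - (r • P) ψ 0 = r • (P ψ δ - P ψ 0) := by
        rw [smul_sub]
        rfl
      rw [h, norm_smul, Real.norm_eq_abs, mul_assoc]
      exact mul_le_mul_of_nonneg_left a2 (abs_nonneg r)

end Pool.Agent.BE01.H99
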