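import Pool.Agent.BE01.StmtsS

/-!
# Squad BE01, module AL1: the algebra of continuous functions
-/

namespace Pool.Agent.BE01.H99

open Set Filter Topology MeasureTheory
open scoped InnerProductSpace ENNReal

noncomputable section

section

variable {r0 r1 : ℝ} (μ : Measure (Ic r0 r1)) [IsFiniteMeasure μ]

/-- The inclusion of `C` in `L^2`. -/
def T2 : C(Ic r0 r1, ℝ) →L[ℝ] Lp ℝ 2 μ := ContinuousMap.toLp 2 μ ℝ

/-- The inclusion of `C` in `L^∞`. -/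
def Ti : C(Ic r0 r1, ℝ) →L[ℝ] Lp ℝ ∞ μ := ContinuousMap.toLp ∞ μ ℝ

theorem T2_coe (x : C(Ic r0 r1, ℝ)) : T2 μ x =ᵐ[μ] x := ContinuousMap.coeFn_toLp μ x

theorem Ti_coe (x : C(Ic r0 r1, ℝ)) : Ti μ x =ᵐ[μ] x := ContinuousMap.coeFn_toLp μ x

/-- The product of a continuous function and a function in `L^2`. -/
def mm : C(Ic r0 r1, ℝ) →L[ℝ] Lp ℝ 2 μ →L[ℝ] Lp ℝ 2 μ :=
  ((ContinuousLinearMap.mul ℝ ℝ).holderL μ ∞ 2 2).comp (Ti μ)

theorem mm_coe (x : C(Ic r0 r1, ℝ)) (h : Lp ℝ 2 μ) : mm μ x h =ᵐ[μ] fun s => x s * h s := by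
  have h1 : mm μ x h =ᵐ[μ] fun s => (ContinuousLinearMap.mul ℝ ℝ) (Ti μ x s) (h s) :=
    (ContinuousLinearMap.mul ℝ ℝ).coeFn_holder (r := 2) (Ti μ x) h
  filter_upwards [h1, Ti_coe μ x] with s hs1 hs2
  rw [hs1, hs2]
  simp

theorem mm_norm (x : C(Ic r0 r1, ℝ)) (h : Lp ℝ 2 μ) : ‖mm μ x h‖ ≤ ‖x‖ * ‖h‖ := by
  have h1 : ‖mm μ x h‖ ≤ ‖(ContinuousLinearMap.mul ℝ ℝ)‖ * ‖Ti μ x‖ * ‖h‖ :=
    (ContinuousLinearMap.mul ℝ ℝ).norm_holder_apply_apply_le (r := 2) (Ti μ x) h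
  have h2 : ‖Ti μ‖ ≤ 1 := by
    have := ContinuousMap.toLp_norm_le (E := ℝ) (𝕜 := ℝ) (p := ∞) μ
    simpa [Ti] using this
  have h3 : ‖Ti μ x‖ ≤ ‖x‖ := by
    calc ‖Ti μ x‖ ≤ ‖Ti μ‖ * ‖x‖ := (Ti μ).le_opNorm x
      _ ≤ 1 * ‖x‖ := by gcongr
      _ = ‖x‖ := one_mul _
  have h4 : ‖(ContinuousLinearMap.mul ℝ ℝ)‖ ≤ 1 := ContinuousLinearMap.opNorm_mul_le ℝ ℝ
  calc ‖mm μ x h‖ ≤ ‖(ContinuousLinearMap.mul ℝ ℝ)‖ * ‖Ti μ x‖ * ‖h‖ := h1
    _ ≤ 1 * ‖x‖ * ‖h‖ := by gcongr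
    _ = ‖x‖ * ‖h‖ := by rw [one_mul]

theorem mm_T (x y : C(Ic r0 r1, ℝ)) : mm μ x (T2 μ y) = T2 μ (x * y) := by
  apply Lp.ext
  filter_upwards [mm_coe μ x (T2 μ y), T2_coe μ y, T2_coe μ (x * y)] with s h1 h2 h3
  rw [h1, h2, h3, ContinuousMap.mul_apply]

theorem al1 : Al1Stmt := by
  intro r0 r1 μ _ hop
  have : μ.IsOpenPosMeasure := ⟨fun U hU hne => (hop U hU hne).ne'⟩
  set L : ℝ := 1 + ‖T2 μ‖ with hL
  have hL1 : 1 ≤ L := by
    rw [hL]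
    linarith [norm_nonneg (T2 μ)]
  have hL0 : 0 < L := by linarith
  have hLT : ‖T2 μ‖ ≤ L ^ 2 := by nlinarith [norm_nonneg (T2 μ)]
  have hTinj : Function.Injective (T2 μ) := ContinuousMap.toLp_injective μ
  refine ⟨{ i := L • ContinuousLinearMap.id ℝ _
            j := L⁻¹ • T2 μ
            mY := ContinuousLinearMap.mul ℝ C(Ic r0 r1, ℝ)
            mH := mm μ
            B := (L ^ 2)⁻¹ • ((ContinuousLinearMap.compL ℝ C(Ic r0 r1, ℝ) C(Ic r0 r1, ℝ)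
              (Lp ℝ 2 μ) (T2 μ)).comp (ContinuousLinearMap.mul ℝ C(Ic r0 r1, ℝ)))
            i_inj := ?_
            j_inj := ?_
            one_mY := ?_
            one_mH := ?_
            mul_mY := ?_
            mul_mH := ?_
            mY_i := ?_
            j_mY := ?_
            B_symm := ?_
            B_i := ?_
            B_mY := ?_
            nY := ?_
            nH := ?_
            nB := ?_ }, ?_⟩
  · intro x y hxy
    have h1 : L • x = L • y := hxy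
    exact smul_right_injective _ hL0.ne' h1
  · intro x y hxy
    have h1 : L⁻¹ • T2 μ x = L⁻¹ • T2 μ y := hxy
    exact hTinj (smul_right_injective _ (inv_pos.2 hL0).ne' h1)
  · intro y
    simp
  · intro h
    apply Lp.ext
    filter_upwards [mm_coe μ 1 h] with s h1
    rw [h1, ContinuousMap.one_apply, one_mul]
  · intro x x' y
    simp [mul_assoc]
  · intro x x' h
    apply Lp.ext
    filter_upwards [mm_coe μ (x * x') h, mm_coe μ x (mm μ x' h), mm_coe μ x' h] with s h1 h2 h3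
    rw [h1, h2, h3, ContinuousMap.mul_apply, mul_assoc]
  · intro x x'
    change x * (L • x') = L • (x * x')
    rw [mul_smul_comm]
  · intro x y
    change L⁻¹ • T2 μ (x * y) = mm μ x (L⁻¹ • T2 μ y)
    rw [map_smul, mm_T]
  · intro y y'
    change (L ^ 2)⁻¹ • T2 μ (y * y') = (L ^ 2)⁻¹ • T2 μ (y' * y)
    rw [mul_comm]
  · intro x y
    change (L ^ 2)⁻¹ • T2 μ ((L • x) * y) = mm μ x (L⁻¹ • T2 μ y)
    rw [map_smul, mm_T, smul_mul_assoc, map_smul, smul_smul]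
    congr 1
    field_simp
  · intro x y y'
    change (L ^ 2)⁻¹ • T2 μ ((x * y) * y') = mm μ x ((L ^ 2)⁻¹ • T2 μ (y * y'))
    rw [map_smul, mm_T, mul_assoc]
  · intro x y
    exact norm_mul_le x y
  · intro x h
    exact mm_norm μ x h
  · intro y y'
    change ‖(L ^ 2)⁻¹ • T2 μ (y * y')‖ ≤ ‖y‖ * ‖y'‖
    rw [norm_smul, Real.norm_of_nonneg (by positivity)]
    have h1 : ‖T2 μ (y * y')‖ ≤ L ^ 2 * (‖y‖ * ‖y'‖) :=
      calc ‖T2 μ (y * y')‖ ≤ ‖T2 μ‖ * ‖y * y'‖ := (T2 μ).le_opNorm _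
        _ ≤ L ^ 2 * (‖y‖ * ‖y'‖) := by
          gcongr
          exact norm_mul_le y y'
    rw [inv_mul_le_iff₀ (by positivity)]
    exact h1
  · intro x
    have h1 : L⁻¹ • T2 μ (L • x) = T2 μ x := by
      rw [map_smul, smul_smul, inv_mul_cancel₀ hL0.ne', one_smul]
    change (L⁻¹ • T2 μ (L • x) : Lp ℝ 2 μ) =ᵐ[μ] x
    rw [h1]
    exact T2_coe μ x

end

end

end Pool.Agent.BE01.H99
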