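import Pool.Agent.BE01.StmtsS

/-!
# Squad BE01, module IFD: `L^2` is not finite dimensional
-/

namespace Pool.Agent.BE01.H99

open Set Filter Topology MeasureTheory
open scoped InnerProductSpace ENNReal

noncomputable section

theorem polyInj {s : Set ℝ} (hs : s.Infinite) :
    Function.Injective (Polynomial.toContinuousMapOnAlgHom s) := by
  rw [injective_iff_map_eq_zero]
  intro p hp
  apply Polynomial.eq_zero_of_infinite_isRoot
  apply hs.mono
  intro x hx
  have h1 : (Polynomial.toContinuousMapOnAlgHom s p) ⟨x, hx⟩ = 0 := by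
    rw [hp]
    rfl
  exact h1

theorem ifd (hPOL : PolStmt) : IfdStmt := by
  intro d r0 r1 h hd h0 h1 hfin
  obtain ⟨_, hf, hop, _, _⟩ := hPOL d r0 r1 h hd h0 h1
  have := hf
  have : (nu d h).IsOpenPosMeasure := ⟨fun U hU hne => (hop U hU hne).ne'⟩
  have hT : Function.Injective (ContinuousMap.toLp (E := ℝ) 2 (nu d h) ℝ) :=
    ContinuousMap.toLp_injective (nu d h)
  have hinf : (Icc r0 r1).Infinite := Icc_infinite h1
  have hP := polyInj hinf
  let F : Polynomial ℝ →ₗ[ℝ] Lp ℝ 2 (nu d h) :=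
    (ContinuousMap.toLp (E := ℝ) 2 (nu d h) ℝ : C(Ic r0 r1, ℝ) →L[ℝ] Lp ℝ 2 (nu d h)).toLinearMap ∘ₗ
      (Polynomial.toContinuousMapOnAlgHom (Icc r0 r1)).toLinearMap
  have hF : Function.Injective F := hT.comp hP
  have : FiniteDimensional ℝ (Lp ℝ 2 (nu d h)) := hfin
  have : Module.Finite ℝ (Polynomial ℝ) := Module.Finite.of_injective F hF
  have := Module.Finite.finite_basis (Polynomial.basisMonomials ℝ)
  exact not_finite ℕ

end

end Pool.Agent.BE01.H99
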